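import Pool.Agent.U350.NE.Count

/-! Short vectors with a small projection to a given subspace (for MP_ef2672_gt). -/

open Matrix Finset

namespace Pool.Agent.U350.NE

open Pool.Agent.H160R3.Herm Pool.Agent.TH220.HG

/-- squared length of the image of the vector `A w` under the matrix `P` -/
noncomputable def psq {n : ℕ} (P A : Matrix (Fin n) (Fin n) ℝ) (w : Fin n → ℤ) : ℝ :=
  ∑ i, (P *ᵥ (A *ᵥ fun j => (w j : ℝ))) i ^ 2

/-- the nonzero vectors `v = A w` of the lattice with `|v| < T λ₁` and `|P v|² < r |v|²` -/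
def near {n : ℕ} (A P : Matrix (Fin n) (Fin n) ℝ) (T r : ℝ) : Set (Fin n → ℤ) :=
  {w | w ≠ 0 ∧ nsq A w < T ^ 2 * minSq A ∧ psq P A w < r * nsq A w}

theorem near_finite {n : ℕ} {A : Matrix (Fin n) (Fin n) ℝ} (hA : A.det ≠ 0)
    (P : Matrix (Fin n) (Fin n) ℝ) (T r : ℝ) : (near A P T r).Finite :=
  (finite_lt hA (T ^ 2 * minSq A)).subset fun _ hw => hw.2.1

theorem psq_eq {n : ℕ} {P : Matrix (Fin n) (Fin n) ℝ} (hP : P.IsSymm) (hPP : P * P = P)
    (x : Fin n → ℝ) : ∑ i, (P *ᵥ x) i ^ 2 = x ⬝ᵥ (P *ᵥ x) := by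
  have h : (P *ᵥ x) ⬝ᵥ (P *ᵥ x) = x ⬝ᵥ (P *ᵥ x) := by
    rw [Matrix.dotProduct_mulVec, ← Matrix.mulVec_transpose, hP, Matrix.mulVec_mulVec, hPP,
      dotProduct_comm]
  rw [← h]
  simp [dotProduct, sq]

theorem exp_two_log {x : ℝ} (hx : 0 < x) : Real.exp (2 * Real.log x) = x ^ 2 := by
  rw [two_mul, Real.exp_add, Real.exp_log hx, sq]

/-- the ratio below which there are vectors -/
noncomputable def thr (μ τ T : ℝ) : ℝ :=
  (τ ^ 2 - (τ / T) ^ 2) / ((T / τ) ^ (2 * (1 - μ) / μ) - (τ / T) ^ 2)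

theorem proj_count {n : ℕ} (hn : 0 < n) {A : Matrix (Fin n) (Fin n) ℝ} (hA : A.det ≠ 0)
    {P : Matrix (Fin n) (Fin n) ℝ} (hP : P.IsSymm) (hPP : P * P = P) {μ : ℝ} (hμ0 : 0 < μ)
    (hμ1 : μ < 1) (htr : P.trace = μ * n) {τ T : ℝ} (hτ : 0 < τ) (hT : τ < T) :
    τ ^ 2 * gam A ≤ (max 1 ((near A P T (thr μ τ T)).ncard : ℝ)) ^ ((2 : ℝ) / n) * hermite n := by
  have hn0 : (0 : ℝ) < n := by exact_mod_cast hn
  have hT0 : 0 < T := hτ.trans hT
  obtain ⟨Q, hQd⟩ : ∃ Q : Matrix (Fin n) (Fin n) ℝ, Q = (1 / μ) • P - 1 := ⟨_, rfl⟩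
  have hQs : Q.IsSymm := by
    rw [hQd, Matrix.IsSymm] at *
    rw [Matrix.transpose_sub, Matrix.transpose_smul, hP, Matrix.transpose_one]
  have hQ : Q.IsHermitian := by
    rw [Matrix.IsHermitian, Matrix.conjTranspose_eq_transpose_of_trivial]
    exact hQs
  have hQt : Q.trace = 0 := by
    rw [hQd, Matrix.trace_sub, Matrix.trace_smul, Matrix.trace_one, smul_eq_mul, htr,
      Fintype.card_fin]
    field_simp
    ring
  have hQf : ∀ x : Fin n → ℝ, x ⬝ᵥ (Q *ᵥ x) = 1 / μ * (x ⬝ᵥ (P *ᵥ x)) - ∑ i, x i ^ 2 := by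
    intro x
    rw [hQd, Matrix.sub_mulVec, Matrix.one_mulVec, Matrix.smul_mulVec, dotProduct_sub,
      dotProduct_smul, smul_eq_mul]
    congr 1
    simp [dotProduct, sq]
  -- the eigenvalues
  have heig : ∀ i, hQ.eigenvalues i = -1 ∨ hQ.eigenvalues i = 1 / μ - 1 := by
    intro i
    have h1 : (Q + 1) * (Q + 1) = (1 / μ) • (Q + 1) := by
      rw [hQd, sub_add_cancel, Matrix.smul_mul, Matrix.mul_smul, hPP]
    have h2 : rot hQ * (Q + 1) * (rot hQ)ᵀ = diagonal (fun i => hQ.eigenvalues i + 1) := by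
      have h3 : rot hQ * Q * (rot hQ)ᵀ = diagonal hQ.eigenvalues := by
        refine (congrArg (fun M => rot hQ * M * (rot hQ)ᵀ) (spec hQ)).trans ?_
        rw [Matrix.mul_assoc, Matrix.mul_assoc ((rot hQ)ᵀ * diagonal hQ.eigenvalues), mul_rot,
          Matrix.mul_one, ← Matrix.mul_assoc, mul_rot, Matrix.one_mul]
      rw [Matrix.mul_add, Matrix.add_mul, h3, Matrix.mul_one, mul_rot]
      ext a b
      by_cases hab : a = b
      · subst hab
        simp
      · simp [Matrix.diagonal_apply_ne _ hab, Matrix.one_apply_ne hab]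
    have h3 : diagonal (fun i => hQ.eigenvalues i + 1) * diagonal (fun i => hQ.eigenvalues i + 1) =
        (1 / μ) • diagonal (fun i => hQ.eigenvalues i + 1) := by
      rw [← h2]
      calc rot hQ * (Q + 1) * (rot hQ)ᵀ * (rot hQ * (Q + 1) * (rot hQ)ᵀ)
          = rot hQ * (Q + 1) * ((rot hQ)ᵀ * rot hQ) * (Q + 1) * (rot hQ)ᵀ := by
            simp only [Matrix.mul_assoc]
        _ = rot hQ * ((Q + 1) * (Q + 1)) * (rot hQ)ᵀ := by
            rw [rot_mul, Matrix.mul_one]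
            simp only [Matrix.mul_assoc]
        _ = (1 / μ) • (rot hQ * (Q + 1) * (rot hQ)ᵀ) := by
            rw [h1, Matrix.mul_smul, Matrix.smul_mul]
    have h4 := congrFun (congrFun h3 i) i
    rw [Matrix.diagonal_mul_diagonal] at h4
    simp only [Matrix.diagonal_apply_eq, Matrix.smul_apply, smul_eq_mul] at h4
    have h5 : (hQ.eigenvalues i + 1) * (hQ.eigenvalues i + 1 - 1 / μ) = 0 := by linarith
    rcases mul_eq_zero.1 h5 with h | h
    · exact Or.inl (by linarith)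
    · exact Or.inr (by linarith)
  obtain ⟨t, ht⟩ : ∃ t : ℝ, t = Real.log (T / τ) := ⟨_, rfl⟩
  have hTτ : 1 < T / τ := by rwa [one_lt_div hτ]
  have ht0 : 0 < t := by rw [ht]; exact Real.log_pos hTτ
  obtain ⟨b2, hb2⟩ : ∃ b2 : ℝ, b2 = (τ / T) ^ 2 := ⟨_, rfl⟩
  obtain ⟨a2, ha2⟩ : ∃ a2 : ℝ, a2 = (T / τ) ^ (2 * (1 - μ) / μ) := ⟨_, rfl⟩
  have hb : Real.exp (2 * t * (-1)) = b2 := by
    rw [hb2, ht, show 2 * Real.log (T / τ) * (-1) = -(2 * Real.log (T / τ)) by ring, Real.exp_neg,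
      exp_two_log (by positivity), ← inv_pow, inv_div]
  have ha : Real.exp (2 * t * (1 / μ - 1)) = a2 := by
    rw [ha2, Real.rpow_def_of_pos (by positivity), ht]
    congr 1
    field_simp
  have hb1 : b2 < 1 := by
    rw [← hb, Real.exp_lt_one_iff]
    linarith
  have ha1 : 1 < a2 := by
    rw [← ha, Real.one_lt_exp_iff]
    have : 1 < 1 / μ := by rwa [one_lt_div hμ0]
    have h3 : 0 < 1 / μ - 1 := by linarith
    positivity
  have hab : 0 < a2 - b2 := by linarith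
  have hdet := stretch_det hQ t
  rw [hQt, mul_zero, Real.exp_zero] at hdet
  have hdet0 : (stretch hQ t * A).det ≠ 0 := by
    rw [Matrix.det_mul]
    refine mul_ne_zero (fun h => ?_) hA
    rw [h, abs_zero] at hdet
    norm_num at hdet
  have hns : ∀ w : Fin n → ℤ, nsq (stretch hQ t * A) w = b2 * nsq A w + (a2 - b2) * psq P A w := by
    intro w
    rw [stretch_nsq]
    have h1 : ∀ i, Real.exp (2 * t * hQ.eigenvalues i) =
        b2 + (a2 - b2) * μ * (hQ.eigenvalues i + 1) := by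
      intro i
      rcases heig i with h | h
      · rw [h, hb]
        ring
      · rw [h, ha]
        field_simp
        ring
    rw [Finset.sum_congr rfl fun i _ => by rw [h1 i]]
    have h2 := rot_norm hQ (A *ᵥ fun j => (w j : ℝ))
    have h3 := rot_form hQ (A *ᵥ fun j => (w j : ℝ))
    have h4 : ∑ i, (b2 + (a2 - b2) * μ * (hQ.eigenvalues i + 1)) *
        (rot hQ *ᵥ (A *ᵥ fun j => (w j : ℝ))) i ^ 2 =
        b2 * ∑ i, (rot hQ *ᵥ (A *ᵥ fun j => (w j : ℝ))) i ^ 2 + (a2 - b2) * μ *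
          (∑ i, hQ.eigenvalues i * (rot hQ *ᵥ (A *ᵥ fun j => (w j : ℝ))) i ^ 2 +
            ∑ i, (rot hQ *ᵥ (A *ᵥ fun j => (w j : ℝ))) i ^ 2) := by
      rw [← Finset.sum_add_distrib, Finset.mul_sum, Finset.mul_sum, ← Finset.sum_add_distrib]
      refine Finset.sum_congr rfl fun i _ => ?_
      ring
    rw [h4, ← h3, h2, hQf, ← psq_eq hP hPP]
    unfold psq nsq
    field_simp
    ring
  have hmin := minSq_pos hn hA
  have hmain := count_lower hn hdet0 (c := τ ^ 2 * minSq A) (near A P T (thr μ τ T))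
    (near_finite hA P T _) (fun w hw hlt => by
      rw [hns] at hlt
      have hp0 : 0 ≤ psq P A w := Finset.sum_nonneg fun _ _ => sq_nonneg _
      have h3 : minSq A ≤ nsq A w := minSq_le A w hw
      refine ⟨hw, ?_, ?_⟩
      · have h4 : b2 * nsq A w < τ ^ 2 * minSq A := by nlinarith
        have h5 : nsq A w = (T / τ) ^ 2 * (b2 * nsq A w) := by
          rw [hb2, ← mul_assoc, ← mul_pow, div_mul_div_comm, mul_comm τ T, div_self (by positivity)]
          ring
        rw [h5]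
        calc (T / τ) ^ 2 * (b2 * nsq A w) < (T / τ) ^ 2 * (τ ^ 2 * minSq A) :=
              mul_lt_mul_of_pos_left h4 (by positivity)
          _ = T ^ 2 * minSq A := by field_simp
      · unfold thr
        rw [← hb2, ← ha2, div_mul_eq_mul_div, lt_div_iff₀ hab]
        have h6 : τ ^ 2 * minSq A ≤ τ ^ 2 * nsq A w := mul_le_mul_of_nonneg_left h3 (by positivity)
        nlinarith)
  refine le_trans (le_of_eq ?_) hmain
  unfold gam
  rw [Matrix.det_mul, abs_mul, hdet, one_mul, mul_div_assoc']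

theorem thr_one (μ T : ℝ) : thr μ 1 T = (1 - (1 / T) ^ 2) / (T ^ (2 * (1 - μ) / μ) - (1 / T) ^ 2) := by
  unfold thr
  norm_num

/-- the ratio is below the average -/
theorem thr_lt {μ T : ℝ} (hμ0 : 0 < μ) (hμ1 : μ < 1) (hT : 1 < T) : thr μ 1 T < μ := by
  have hT0 : 0 < T := by linarith
  have hlog : 0 < Real.log T := Real.log_pos hT
  rw [thr_one]
  have hb : (1 / T) ^ 2 = Real.exp (-(2 * Real.log T)) := by
    rw [Real.exp_neg, exp_two_log hT0, one_div, inv_pow]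
  have ha : T ^ (2 * (1 - μ) / μ) = Real.exp (2 * Real.log T * ((1 - μ) / μ)) := by
    rw [Real.rpow_def_of_pos hT0]
    congr 1
    ring
  have h1 := Real.add_one_lt_exp (x := 2 * Real.log T * ((1 - μ) / μ)) (by
    have : 0 < (1 - μ) / μ := div_pos (by linarith) hμ0
    positivity)
  have h2 := Real.add_one_le_exp (-(2 * Real.log T))
  rw [← hb] at h2
  rw [← ha] at h1
  have hb1 : (1 / T) ^ 2 < 1 := by
    rw [hb, Real.exp_lt_one_iff]
    linarith
  have ha1 : 1 < T ^ (2 * (1 - μ) / μ) := Real.one_lt_rpow hT (div_pos (by linarith) hμ0)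
  rw [div_lt_iff₀ (by linarith)]
  have h3 : μ * (2 * Real.log T * ((1 - μ) / μ)) = 2 * Real.log T * (1 - μ) := by field_simp
  nlinarith [mul_lt_mul_of_pos_left h1 hμ0, mul_le_mul_of_nonneg_left h2 (by linarith : 0 ≤ 1 - μ)]

theorem thr_cont {μ T : ℝ} (hμ0 : 0 < μ) (hμ1 : μ < 1) (hT : 1 < T) :
    ContinuousAt (fun τ => thr μ τ T) 1 := by
  have hT0 : 0 < T := by linarith
  unfold thr
  have ha1 : 1 < T ^ (2 * (1 - μ) / μ) := Real.one_lt_rpow hT (div_pos (by linarith) hμ0)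
  have hb1 : (1 / T) ^ 2 < 1 := by
    rw [one_div, inv_pow]
    exact inv_lt_one_of_one_lt₀ (one_lt_pow₀ hT (by norm_num))
  have h1 : ContinuousAt (fun τ : ℝ => T / τ) 1 := continuousAt_const.div continuousAt_id one_ne_zero
  have h2 : ContinuousAt (fun τ : ℝ => (T / τ) ^ (2 * (1 - μ) / μ)) 1 :=
    h1.rpow_const (Or.inl (by rw [div_one]; exact hT0.ne'))
  have h3 : ContinuousAt (fun τ : ℝ => (τ / T) ^ 2) 1 := (continuousAt_id.div_const T).pow 2
  refine ((continuousAt_id.pow 2).sub h3).div (h2.sub h3) ?_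
  rw [div_one]
  linarith

/-- near-optimal lattices have exponentially many short vectors below any ratio above `thr μ 1 T` -/
theorem proj_exp {μ T ρ : ℝ} (hμ0 : 0 < μ) (hμ1 : μ < 1) (hT : 1 < T) (hρ : thr μ 1 T < ρ) :
    ∃ η c : ℝ, 0 < η ∧ η < 1 ∧ 0 < c ∧ ∀ n : ℕ, 0 < n → ∀ A : Matrix (Fin n) (Fin n) ℝ, A.det ≠ 0 →
      (1 - η) * hermite n ≤ gam A → ∀ P : Matrix (Fin n) (Fin n) ℝ, P.IsSymm → P * P = P →
        P.trace = μ * n → Real.exp (c * n) ≤ (near A P T ρ).ncard := by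
  have h1 := (thr_cont hμ0 hμ1 hT).eventually_lt continuousAt_const hρ
  have h2 : ∀ᶠ τ : ℝ in nhds 1, τ < T := eventually_lt_nhds hT
  obtain ⟨δ, hδ, hball⟩ := Metric.eventually_nhds_iff.1 (h1.and h2)
  obtain ⟨τ, hτ⟩ : ∃ τ : ℝ, τ = 1 + δ / 2 := ⟨_, rfl⟩
  have hτ1 : 1 < τ := by linarith
  obtain ⟨h3, h4⟩ := hball (y := τ) (by rw [hτ, Real.dist_eq]; rw [abs_of_pos] <;> linarith)
  have hinv : 0 < 1 / τ := by positivity
  have hinv1 : 1 / τ < 1 := by rwa [div_lt_one (by linarith)]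
  refine ⟨1 - 1 / τ, Real.log τ / 2, by linarith, by linarith, by have := Real.log_pos hτ1; positivity,
    fun n hn A hA h5 P hP hPP htr => ?_⟩
  have hn0 : (0 : ℝ) < n := by exact_mod_cast hn
  have h6 := proj_count hn hA hP hPP hμ0 hμ1 htr (by linarith) h4
  have hh : 0 < hermite n := lt_of_lt_of_le (div_pos hn0 (by norm_num)) (hermite_ge hn)
  have h7 : τ ≤ (max 1 ((near A P T (thr μ τ T)).ncard : ℝ)) ^ ((2 : ℝ) / n) := by
    have h8 : τ * hermite n ≤ τ ^ 2 * gam A := by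
      have h9 : (1 - (1 - 1 / τ)) * hermite n = hermite n / τ := by ring
      rw [h9] at h5
      have h10 := mul_le_mul_of_nonneg_left h5 (by positivity : (0 : ℝ) ≤ τ ^ 2)
      have h11 : τ ^ 2 * (hermite n / τ) = τ * hermite n := by field_simp
      linarith
    exact le_of_mul_le_mul_right (h8.trans h6) hh
  have h8 : τ ^ ((n : ℝ) / 2) ≤ max 1 ((near A P T (thr μ τ T)).ncard : ℝ) := by
    have h9 := Real.rpow_le_rpow (by linarith) h7 (by positivity : (0 : ℝ) ≤ (n : ℝ) / 2)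
    rw [← Real.rpow_mul (le_trans zero_le_one (le_max_left _ _)),
      show (2 : ℝ) / n * (n / 2) = 1 by field_simp, Real.rpow_one] at h9
    exact h9
  have h9 : 1 < τ ^ ((n : ℝ) / 2) := Real.one_lt_rpow hτ1 (by positivity)
  have h10 : τ ^ ((n : ℝ) / 2) ≤ ((near A P T (thr μ τ T)).ncard : ℝ) := by
    rcases le_max_iff.1 h8 with h | h
    · linarith
    · exact h
  have h11 : Real.exp (Real.log τ / 2 * n) = τ ^ ((n : ℝ) / 2) := by
    rw [Real.rpow_def_of_pos (by linarith)]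
    congr 1
    ring
  rw [h11]
  refine h10.trans (Nat.cast_le.2 (Set.ncard_le_ncard (fun w hw => ⟨hw.1, hw.2.1, ?_⟩)
    (near_finite hA P T ρ)))
  have h12 := hw.2.2
  have h13 := nsq_pos hA hw.1
  nlinarith

end Pool.Agent.U350.NE
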