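import Pool.Agent.U350.NE.Tight
import Pool.Agent.U350.NE.Proj
import Pool.Agent.W259.GP.Main
import Pool.Agent.W259.GP.Fin

/-! Exponential versions, and lattices above the believed value (for MP_ef2672_gt). -/

open Matrix Finset Filter

namespace Pool.Agent.U350.NE

open Pool.Agent.H160R3.Herm Pool.Agent.TH220.HG

theorem hermite_pos {n : ℕ} (hn : 0 < n) : 0 < hermite n :=
  lt_of_lt_of_le (div_pos (by exact_mod_cast hn) (by norm_num)) (hermite_ge hn)

theorem card_pow {n : ℕ} (hn : 0 < n) {c : ℝ} (hc : 0 < c) (D : Finset (Fin n → ℤ))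
    (hD : (D.card : ℝ) ≤ Real.exp (c * n)) :
    (max 1 (D.card : ℝ)) ^ ((2 : ℝ) / n) ≤ Real.exp (2 * c) := by
  have hn0 : (0 : ℝ) < n := by exact_mod_cast hn
  have h1 : max 1 (D.card : ℝ) ≤ Real.exp (c * n) := by
    apply max_le _ hD
    rw [Real.one_le_exp_iff]
    positivity
  calc (max 1 (D.card : ℝ)) ^ ((2 : ℝ) / n) ≤ Real.exp (c * n) ^ ((2 : ℝ) / n) :=
        Real.rpow_le_rpow (le_trans zero_le_one (le_max_left _ _)) h1 (by positivity)
    _ = Real.exp (2 * c) := by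
        rw [← Real.exp_mul]
        congr 1
        field_simp

theorem tight_exp {s T : ℝ} (hs : 0 < s) (hT : 1 < T) :
    ∃ η c : ℝ, 0 < η ∧ η < 1 ∧ 0 < c ∧ ∀ n : ℕ, 0 < n → ∀ A : Matrix (Fin n) (Fin n) ℝ, A.det ≠ 0 →
      (1 - η) * hermite n ≤ gam A → ∀ D : Finset (Fin n → ℤ), (D.card : ℝ) ≤ Real.exp (c * n) →
        NearlyTight A D T s := by
  obtain ⟨κ, hκ⟩ : ∃ κ : ℝ, κ = T ^ (2 * s / (1 + s)) := ⟨_, rfl⟩
  have hκ1 : 1 < κ := by rw [hκ]; exact Real.one_lt_rpow hT (by positivity)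
  have hlog : 0 < Real.log κ := Real.log_pos hκ1
  refine ⟨1 - Real.exp (-(Real.log κ / 4)), Real.log κ / 4, ?_, ?_, by positivity,
    fun n hn A hA h1 D hD => tight hn hA hs hT D ?_⟩
  · have : Real.exp (-(Real.log κ / 4)) < 1 := by rw [Real.exp_lt_one_iff]; linarith
    linarith
  · have := Real.exp_pos (-(Real.log κ / 4))
    linarith
  have hh := hermite_pos hn
  have h2 := card_pow hn (c := Real.log κ / 4) (by positivity) D hD
  rw [sub_sub_cancel] at h1
  rw [← hκ]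
  calc (max 1 (D.card : ℝ)) ^ ((2 : ℝ) / n) * hermite n
      ≤ Real.exp (2 * (Real.log κ / 4)) * hermite n := mul_le_mul_of_nonneg_right h2 hh.le
    _ < κ * (Real.exp (-(Real.log κ / 4)) * hermite n) := by
        rw [← mul_assoc]
        apply mul_lt_mul_of_pos_right _ hh
        have h3 : κ * Real.exp (-(Real.log κ / 4)) = Real.exp (Real.log κ + -(Real.log κ / 4)) := by
          rw [Real.exp_add, Real.exp_log (by linarith)]
        rw [h3]
        apply Real.exp_lt_exp.2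
        linarith
    _ ≤ κ * gam A := mul_le_mul_of_nonneg_left h1 (by linarith)

theorem tight_believed {s T : ℝ} (hs : 0 < s) (hT : 1 < T)
    (h : 2 * Real.exp 1 / Real.pi < T ^ (2 * s / (1 + s))) :
    ∃ c : ℝ, 0 < c ∧ ∀ᶠ n : ℕ in atTop, ∀ A : Matrix (Fin n) (Fin n) ℝ, A.det ≠ 0 →
      n / (2 * Real.pi * Real.exp 1) ≤ gam A → ∀ D : Finset (Fin n → ℤ),
        (D.card : ℝ) ≤ Real.exp (c * n) → NearlyTight A D T s := by
  obtain ⟨κ, hκ⟩ : ∃ κ : ℝ, κ = T ^ (2 * s / (1 + s)) := ⟨_, rfl⟩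
  rw [← hκ] at h
  have hpi := Real.pi_pos
  have he := Real.exp_pos 1
  obtain ⟨q, hq⟩ : ∃ q : ℝ, q = κ / (2 * Real.pi * Real.exp 1) := ⟨_, rfl⟩
  have h1 : 1 / Real.pi ^ 2 < q := by
    rw [hq, lt_div_iff₀ (by positivity)]
    calc 1 / Real.pi ^ 2 * (2 * Real.pi * Real.exp 1) = 2 * Real.exp 1 / Real.pi := by field_simp
      _ < κ := h
  obtain ⟨r, hr1, hr2⟩ := exists_between h1
  have hr0 : 0 < r := lt_trans (by positivity) hr1
  have hqr : 1 < q / r := by rwa [one_lt_div hr0]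
  have hlog : 0 < Real.log (q / r) := Real.log_pos hqr
  refine ⟨Real.log (q / r) / 4, by positivity, ?_⟩
  filter_upwards [Pool.Agent.W259.GP.hermite_bound Pool.Agent.W259.GP.s_main (r - 1 / Real.pi ^ 2)
    (by linarith), eventually_gt_atTop 0] with n hb hn A hA hA2 D hD
  have hb' : hermite n / n ≤ 1 / Real.pi ^ 2 + (r - 1 / Real.pi ^ 2) := hb
  have hn0 : (0 : ℝ) < n := by exact_mod_cast hn
  have hb2 : hermite n ≤ r * n := by
    rw [div_le_iff₀ hn0] at hb'
    linarith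
  apply tight hn hA hs hT D
  rw [← hκ]
  have h2 := card_pow hn (c := Real.log (q / r) / 4) (by positivity) D hD
  have h3 : Real.exp (2 * (Real.log (q / r) / 4)) < q / r := by
    conv_rhs => rw [← Real.exp_log (show 0 < q / r by linarith)]
    apply Real.exp_lt_exp.2
    linarith
  calc (max 1 (D.card : ℝ)) ^ ((2 : ℝ) / n) * hermite n
      ≤ Real.exp (2 * (Real.log (q / r) / 4)) * (r * n) :=
        mul_le_mul h2 hb2 (hermite_pos hn).le (Real.exp_pos _).le
    _ < q / r * (r * n) := mul_lt_mul_of_pos_right h3 (by positivity)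
    _ = κ * (n / (2 * Real.pi * Real.exp 1)) := by
        rw [hq]
        field_simp
    _ ≤ κ * gam A := mul_le_mul_of_nonneg_left hA2 (by
        have : 0 < 2 * Real.exp 1 / Real.pi := by positivity
        linarith)

end Pool.Agent.U350.NE
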