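import Pool.Agent.TH220.HG.Sub

/-! Lattice vectors in ellipsoids: near-optimal lattices are nearly eutactic (for MP_ef2672_gt). -/

open Matrix Finset

namespace Pool.Agent.U350.NE

open Pool.Agent.H160R3.Herm Pool.Agent.TH220.HG

/-- the number of the nonzero lattice vectors in a ball of any radius -/
theorem count_lower {n : ℕ} (hn : 0 < n) {B : Matrix (Fin n) (Fin n) ℝ} (hB : B.det ≠ 0) {c : ℝ}
    (S : Set (Fin n → ℤ)) (hS : S.Finite) (hsub : ∀ w, w ≠ 0 → nsq B w < c → w ∈ S) :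
    c / |B.det| ^ ((2 : ℝ) / n) ≤ (max 1 (S.ncard : ℝ)) ^ ((2 : ℝ) / n) * hermite n := by
  have hmin := minSq_pos hn hB
  have hd : 0 < |B.det| := abs_pos.2 hB
  have hh0 : 0 ≤ hermite n :=
    le_trans (div_nonneg (minSq_nonneg B) (by positivity)) (le_hermite hn B hB)
  have h2n : (0 : ℝ) ≤ 2 / n := by positivity
  rcases le_or_gt c (minSq B) with h | h
  · calc c / |B.det| ^ ((2 : ℝ) / n) ≤ minSq B / |B.det| ^ ((2 : ℝ) / n) := by gcongr
      _ ≤ hermite n := le_hermite hn B hB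
      _ = 1 * hermite n := (one_mul _).symm
      _ ≤ _ := by
        apply mul_le_mul_of_nonneg_right _ hh0
        exact Real.one_le_rpow (le_max_left _ _) h2n
  · have ht : 1 < c / minSq B := by rwa [lt_div_iff₀ hmin, one_mul]
    have h1 := sub_ineq hn hB ht
    have h2 : c / minSq B * gam B = c / |B.det| ^ ((2 : ℝ) / n) := by
      unfold gam
      have h3 : |B.det| ^ ((2 : ℝ) / n) ≠ 0 := by positivity
      field_simp
    rw [h2] at h1
    refine h1.trans (mul_le_mul_of_nonneg_right ?_ hh0)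
    apply Real.rpow_le_rpow (Nat.cast_nonneg _) _ h2n
    refine le_trans ?_ (le_max_right _ _)
    refine Nat.cast_le.2 (Set.ncard_le_ncard (fun w hw => hsub w hw.1 ?_) hS)
    have := hw.2
    rwa [div_mul_cancel₀ _ hmin.ne'] at this

section spectral

variable {n : ℕ} {Q : Matrix (Fin n) (Fin n) ℝ} (hQ : Q.IsHermitian)

/-- the orthogonal matrix with the eigenvectors as rows -/
noncomputable def rot : Matrix (Fin n) (Fin n) ℝ := (hQ.eigenvectorUnitary : Matrix (Fin n) (Fin n) ℝ)ᵀ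

theorem rot_mul : (rot hQ)ᵀ * rot hQ = 1 := by
  have h := Unitary.mul_star_self_of_mem hQ.eigenvectorUnitary.2
  rw [Matrix.star_eq_conjTranspose, Matrix.conjTranspose_eq_transpose_of_trivial] at h
  unfold rot
  rw [Matrix.transpose_transpose]
  exact h

theorem mul_rot : rot hQ * (rot hQ)ᵀ = 1 := mul_eq_one_comm.1 (rot_mul hQ)

theorem spec : Q = (rot hQ)ᵀ * diagonal hQ.eigenvalues * rot hQ := by
  have h := hQ.spectral_theorem
  rw [Unitary.conjStarAlgAut_apply, Matrix.star_eq_conjTranspose,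
    Matrix.conjTranspose_eq_transpose_of_trivial] at h
  unfold rot
  rw [Matrix.transpose_transpose]
  exact h

theorem rot_norm (x : Fin n → ℝ) : ∑ i, (rot hQ *ᵥ x) i ^ 2 = ∑ i, x i ^ 2 := by
  have h : (rot hQ *ᵥ x) ⬝ᵥ (rot hQ *ᵥ x) = x ⬝ᵥ x := by
    rw [Matrix.dotProduct_mulVec, ← Matrix.mulVec_transpose, Matrix.mulVec_mulVec, rot_mul,
      Matrix.one_mulVec]
  simpa [dotProduct, sq] using h

theorem rot_form (x : Fin n → ℝ) :
    x ⬝ᵥ (Q *ᵥ x) = ∑ i, hQ.eigenvalues i * (rot hQ *ᵥ x) i ^ 2 := by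
  conv_lhs => rw [spec hQ]
  rw [← Matrix.mulVec_mulVec, ← Matrix.mulVec_mulVec, Matrix.dotProduct_mulVec,
    Matrix.vecMul_transpose]
  simp only [dotProduct, Matrix.mulVec_diagonal]
  refine Finset.sum_congr rfl fun i _ => ?_
  ring

theorem rot_det : |(rot hQ).det| = 1 := by
  have h : (rot hQ).det * (rot hQ).det = 1 := by
    have h2 := congrArg Matrix.det (rot_mul hQ)
    rwa [Matrix.det_mul, Matrix.det_transpose, Matrix.det_one] at h2
  have h3 : |(rot hQ).det| * |(rot hQ).det| = 1 := by rw [← abs_mul, h, abs_one]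
  nlinarith [abs_nonneg (rot hQ).det]

theorem eig_ge (h1 : ∀ x : Fin n → ℝ, -(x ⬝ᵥ x) ≤ x ⬝ᵥ (Q *ᵥ x)) (i : Fin n) :
    -1 ≤ hQ.eigenvalues i := by
  have h2 := h1 ((rot hQ)ᵀ *ᵥ Pi.single i 1)
  have h3 : rot hQ *ᵥ ((rot hQ)ᵀ *ᵥ Pi.single i 1) = Pi.single i 1 := by
    rw [Matrix.mulVec_mulVec, mul_rot, Matrix.one_mulVec]
  have h4 := rot_norm hQ ((rot hQ)ᵀ *ᵥ Pi.single i 1)
  rw [h3] at h4
  rw [rot_form hQ, h3] at h2
  have h5 : ((rot hQ)ᵀ *ᵥ Pi.single i 1) ⬝ᵥ ((rot hQ)ᵀ *ᵥ Pi.single i 1) = 1 := by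
    rw [show ((rot hQ)ᵀ *ᵥ Pi.single i (1 : ℝ)) ⬝ᵥ ((rot hQ)ᵀ *ᵥ Pi.single i 1) =
      ∑ j, ((rot hQ)ᵀ *ᵥ Pi.single i (1 : ℝ)) j ^ 2 by simp [dotProduct, sq], ← h4]
    rw [Finset.sum_eq_single i]
    · simp
    · intro j _ hj
      simp [Pi.single_eq_of_ne hj]
    · simp
  rw [h5] at h2
  rw [Finset.sum_eq_single i] at h2
  · simpa using h2
  · intro j _ hj
    simp [Pi.single_eq_of_ne hj]
  · simp

/-- the linear map which changes the lengths -/
noncomputable def stretch (t : ℝ) : Matrix (Fin n) (Fin n) ℝ :=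
  diagonal (fun i => Real.exp (t * hQ.eigenvalues i)) * rot hQ

theorem stretch_det (t : ℝ) : |(stretch hQ t).det| = Real.exp (t * Q.trace) := by
  unfold stretch
  rw [Matrix.det_mul, abs_mul, rot_det, mul_one, Matrix.det_diagonal, ← Real.exp_sum,
    ← Finset.mul_sum, abs_of_pos (Real.exp_pos _), hQ.trace_eq_sum_eigenvalues]
  simp

theorem stretch_nsq (t : ℝ) (A : Matrix (Fin n) (Fin n) ℝ) (w : Fin n → ℤ) :
    nsq (stretch hQ t * A) w = ∑ i, Real.exp (2 * t * hQ.eigenvalues i) *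
      (rot hQ *ᵥ (A *ᵥ fun j => (w j : ℝ))) i ^ 2 := by
  unfold nsq stretch
  refine Finset.sum_congr rfl fun i _ => ?_
  rw [← Matrix.mulVec_mulVec, ← Matrix.mulVec_mulVec, Matrix.mulVec_diagonal, mul_pow,
    ← Real.exp_nat_mul]
  congr 2
  push_cast
  ring

theorem jensen {y q : Fin n → ℝ} {r N : ℝ} (hr : 0 ≤ r) (hN : ∑ i, y i ^ 2 = N) (hN0 : 0 < N) {s : ℝ}
    (h : s * N ≤ ∑ i, q i * y i ^ 2) :
    N * Real.exp (r * s) ≤ ∑ i, Real.exp (r * q i) * y i ^ 2 := by
  have h1 := convexOn_exp.map_sum_le (t := Finset.univ) (w := fun i => y i ^ 2 / N)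
    (p := fun i => r * q i) (fun i _ => by positivity) (by rw [← Finset.sum_div, hN]; field_simp)
    (fun i _ => Set.mem_univ _)
  simp only [smul_eq_mul] at h1
  have h2 : r * s ≤ ∑ i, y i ^ 2 / N * (r * q i) := by
    have h3 : ∑ i, y i ^ 2 / N * (r * q i) = r * ((∑ i, q i * y i ^ 2) / N) := by
      rw [Finset.sum_div, Finset.mul_sum]
      refine Finset.sum_congr rfl fun i _ => ?_
      ring
    rw [h3]
    apply mul_le_mul_of_nonneg_left _ hr
    rwa [le_div_iff₀ hN0]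
  have h4 := (Real.exp_le_exp.2 h2).trans h1
  calc N * Real.exp (r * s) ≤ N * ∑ i, y i ^ 2 / N * Real.exp (r * q i) :=
        mul_le_mul_of_nonneg_left h4 hN0.le
    _ = ∑ i, Real.exp (r * q i) * y i ^ 2 := by
        rw [Finset.mul_sum]
        refine Finset.sum_congr rfl fun i _ => ?_
        field_simp

end spectral

/-- the nonzero vectors `v = A w` of the lattice with `|v| < T λ₁` and `vᵀ Q v < s |v|²` -/
def below {n : ℕ} (A Q : Matrix (Fin n) (Fin n) ℝ) (T s : ℝ) : Set (Fin n → ℤ) :=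
  {w | w ≠ 0 ∧ nsq A w < T ^ 2 * minSq A ∧
    (A *ᵥ fun j => (w j : ℝ)) ⬝ᵥ (Q *ᵥ (A *ᵥ fun j => (w j : ℝ))) < s * nsq A w}

theorem below_finite {n : ℕ} {A : Matrix (Fin n) (Fin n) ℝ} (hA : A.det ≠ 0)
    (Q : Matrix (Fin n) (Fin n) ℝ) (T s : ℝ) : (below A Q T s).Finite :=
  (finite_lt hA (T ^ 2 * minSq A)).subset fun _ hw => hw.2.1

theorem main_count {n : ℕ} (hn : 0 < n) {A : Matrix (Fin n) (Fin n) ℝ} (hA : A.det ≠ 0)
    {Q : Matrix (Fin n) (Fin n) ℝ} (hQ : Q.IsSymm)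
    (h1 : ∀ x : Fin n → ℝ, -(x ⬝ᵥ x) ≤ x ⬝ᵥ (Q *ᵥ x)) (htr : Q.trace ≤ 0) {s T : ℝ} (hs : 0 < s)
    (hT : 1 < T) :
    T ^ (2 * s / (1 + s)) * gam A ≤
      (max 1 ((below A Q T s).ncard : ℝ)) ^ ((2 : ℝ) / n) * hermite n := by
  have hQ' : Q.IsHermitian := by
    rw [Matrix.IsHermitian, Matrix.conjTranspose_eq_transpose_of_trivial]
    exact hQ
  have hT0 : 0 < T := by linarith
  have hlog : 0 < Real.log T := Real.log_pos hT
  obtain ⟨t, ht⟩ : ∃ t : ℝ, t = Real.log T / (1 + s) := ⟨_, rfl⟩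
  have ht0 : 0 < t := by rw [ht]; positivity
  have hTt : Real.exp (2 * t * (1 + s)) = T ^ 2 := by
    rw [ht, show 2 * (Real.log T / (1 + s)) * (1 + s) = 2 * Real.log T by field_simp,
      mul_comm, Real.exp_mul, Real.exp_log hT0]
    norm_num
  have hτ : Real.exp (2 * t * s) = T ^ (2 * s / (1 + s)) := by
    rw [Real.rpow_def_of_pos hT0, ht]
    congr 1
    field_simp
  have hmin := minSq_pos hn hA
  have hdet := stretch_det hQ' t
  have hdet0 : (stretch hQ' t * A).det ≠ 0 := by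
    rw [Matrix.det_mul]
    refine mul_ne_zero (fun h => ?_) hA
    rw [h, abs_zero] at hdet
    exact (Real.exp_pos _).ne hdet
  have hmain := count_lower hn hdet0 (c := T ^ (2 * s / (1 + s)) * minSq A) (below A Q T s)
    (below_finite hA Q T s) (fun w hw hlt => by
      have hpos := nsq_pos hA hw
      have hN := rot_norm hQ' (A *ᵥ fun j => (w j : ℝ))
      have hN' : ∑ i, (rot hQ' *ᵥ (A *ᵥ fun j => (w j : ℝ))) i ^ 2 = nsq A w := hN
      rw [stretch_nsq] at hlt
      refine ⟨hw, ?_, ?_⟩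
      · have h2 : Real.exp (-(2 * t)) * nsq A w ≤ ∑ i, Real.exp (2 * t * hQ'.eigenvalues i) *
            (rot hQ' *ᵥ (A *ᵥ fun j => (w j : ℝ))) i ^ 2 := by
          rw [← hN', Finset.mul_sum]
          refine Finset.sum_le_sum fun i _ => mul_le_mul_of_nonneg_right ?_ (sq_nonneg _)
          apply Real.exp_le_exp.2
          have := eig_ge hQ' h1 i
          nlinarith
        have h3 := lt_of_le_of_lt h2 hlt
        have h4 : nsq A w = Real.exp (2 * t) * (Real.exp (-(2 * t)) * nsq A w) := by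
          rw [← mul_assoc, ← Real.exp_add]
          simp
        rw [h4]
        calc Real.exp (2 * t) * (Real.exp (-(2 * t)) * nsq A w)
            < Real.exp (2 * t) * (T ^ (2 * s / (1 + s)) * minSq A) :=
              mul_lt_mul_of_pos_left h3 (Real.exp_pos _)
          _ = T ^ 2 * minSq A := by
              rw [← hτ, ← mul_assoc, ← Real.exp_add, ← hTt]
              ring_nf
      · by_contra hcon
        push Not at hcon
        rw [rot_form hQ'] at hcon
        have h2 := jensen (r := 2 * t) (by positivity) hN' hpos hcon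
        have h3 : minSq A ≤ nsq A w := minSq_le A w hw
        rw [hτ] at h2
        have h4 : T ^ (2 * s / (1 + s)) * minSq A ≤ nsq A w * T ^ (2 * s / (1 + s)) := by
          rw [mul_comm]
          exact mul_le_mul_of_nonneg_right h3 (by positivity)
        linarith)
  refine le_trans ?_ hmain
  unfold gam
  rw [Matrix.det_mul, abs_mul, hdet, mul_div_assoc']
  have hd : 0 < |A.det| := abs_pos.2 hA
  apply div_le_div_of_nonneg_left (by positivity) (by positivity)
  apply Real.rpow_le_rpow (by positivity) _ (by positivity)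
  have h5 : Real.exp (t * Q.trace) ≤ 1 := by
    rw [Real.exp_le_one_iff]
    exact mul_nonpos_of_nonneg_of_nonpos ht0.le htr
  calc Real.exp (t * Q.trace) * |A.det| ≤ 1 * |A.det| := mul_le_mul_of_nonneg_right h5 hd.le
    _ = |A.det| := one_mul _

end Pool.Agent.U350.NE
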