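import Pool.Agent.U350.NE.Count

/-! Near-optimal lattices are nearly eutactic: separation of convex sets (for MP_ef2672_gt). -/

open Matrix Finset

namespace Pool.Agent.U350.NE

open Pool.Agent.H160R3.Herm Pool.Agent.TH220.HG

/-- The vectors `v = A w` of the lattice `A ℤⁿ`, `w` not in `D`, which are shorter than `T λ₁` have
weights `c ≥ 0` for which the form `∑ c (x · v)²` is at most `(1 + s) |x|²` and has the trace
`∑ c |v|² = n` (the trace of `|x|²`): a nearly tight frame. For a eutactic lattice the form is `|x|²`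
itself with weights on the vectors of length `λ₁`. -/
def NearlyTight {n : ℕ} (A : Matrix (Fin n) (Fin n) ℝ) (D : Finset (Fin n → ℤ)) (T s : ℝ) : Prop :=
  ∃ (F : Finset (Fin n → ℤ)) (c : (Fin n → ℤ) → ℝ),
    (∀ w ∈ F, w ≠ 0 ∧ w ∉ D ∧ nsq A w < T ^ 2 * minSq A ∧ 0 ≤ c w) ∧
    ∑ w ∈ F, c w * nsq A w = n ∧
    ∀ x : Fin n → ℝ, ∑ w ∈ F, c w * (x ⬝ᵥ (A *ᵥ fun j => (w j : ℝ))) ^ 2 ≤ (1 + s) * ∑ i, x i ^ 2

/-- the rank one form -/
def rk {n : ℕ} (x : Fin n → ℝ) : Fin n → Fin n → ℝ := fun i j => x i * x j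

/-- the unit form -/
def un (n : ℕ) : Fin n → Fin n → ℝ := fun i j => if i = j then 1 else 0

theorem form_rk {n : ℕ} (x y : Fin n → ℝ) : ∑ i, ∑ j, y i * rk x i j * y j = (y ⬝ᵥ x) ^ 2 := by
  rw [sq, dotProduct, Finset.sum_mul_sum]
  refine Finset.sum_congr rfl fun i _ => Finset.sum_congr rfl fun j _ => ?_
  unfold rk
  ring

theorem form_un {n : ℕ} (y : Fin n → ℝ) : ∑ i, ∑ j, y i * un n i j * y j = ∑ i, y i ^ 2 := by
  refine Finset.sum_congr rfl fun i _ => ?_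
  rw [Finset.sum_eq_single i]
  · simp [un, sq]
  · intro j _ hj
    simp [un, hj.symm]
  · simp

/-- the set of the forms which are at most `c |x|²` -/
def Cset (n : ℕ) (c : ℝ) : Set (Fin n → Fin n → ℝ) :=
  {X | ∀ x : Fin n → ℝ, ∑ i, ∑ j, x i * X i j * x j ≤ c * ∑ i, x i ^ 2}

theorem Cset_convex (n : ℕ) (c : ℝ) : Convex ℝ (Cset n c) := by
  intro X hX Y hY a b ha hb hab x
  have h1 := hX x
  have h2 := hY x
  have h3 : ∑ i, ∑ j, x i * (a • X + b • Y) i j * x j =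
      a * ∑ i, ∑ j, x i * X i j * x j + b * ∑ i, ∑ j, x i * Y i j * x j := by
    rw [Finset.mul_sum, Finset.mul_sum, ← Finset.sum_add_distrib]
    refine Finset.sum_congr rfl fun i _ => ?_
    rw [Finset.mul_sum, Finset.mul_sum, ← Finset.sum_add_distrib]
    refine Finset.sum_congr rfl fun j _ => ?_
    simp only [Pi.add_apply, Pi.smul_apply, smul_eq_mul]
    ring
  rw [h3]
  calc a * ∑ i, ∑ j, x i * X i j * x j + b * ∑ i, ∑ j, x i * Y i j * x j
      ≤ a * (c * ∑ i, x i ^ 2) + b * (c * ∑ i, x i ^ 2) :=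
        add_le_add (mul_le_mul_of_nonneg_left h1 ha) (mul_le_mul_of_nonneg_left h2 hb)
    _ = (a + b) * (c * ∑ i, x i ^ 2) := by ring
    _ = c * ∑ i, x i ^ 2 := by rw [hab, one_mul]

theorem Cset_closed (n : ℕ) (c : ℝ) : IsClosed (Cset n c) := by
  have h : Cset n c = ⋂ x : Fin n → ℝ, {X | ∑ i, ∑ j, x i * X i j * x j ≤ c * ∑ i, x i ^ 2} := by
    ext X
    simp [Cset]
  rw [h]
  refine isClosed_iInter fun x => isClosed_le ?_ continuous_const
  fun_prop

theorem mem_Cset {n : ℕ} {c r : ℝ} (hr : 0 ≤ r) (x : Fin n → ℝ) : c • un n - r • rk x ∈ Cset n c := by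
  intro y
  have h3 : ∑ i, ∑ j, y i * (c • un n - r • rk x) i j * y j =
      c * ∑ i, ∑ j, y i * un n i j * y j - r * ∑ i, ∑ j, y i * rk x i j * y j := by
    rw [Finset.mul_sum, Finset.mul_sum, ← Finset.sum_sub_distrib]
    refine Finset.sum_congr rfl fun i _ => ?_
    rw [Finset.mul_sum, Finset.mul_sum, ← Finset.sum_sub_distrib]
    refine Finset.sum_congr rfl fun j _ => ?_
    simp only [Pi.sub_apply, Pi.smul_apply, smul_eq_mul]
    ring
  rw [h3, form_rk, form_un]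
  nlinarith [mul_nonneg hr (sq_nonneg (y ⬝ᵥ x))]

theorem expand {n : ℕ} (f : (Fin n → Fin n → ℝ) →L[ℝ] ℝ) (X : Fin n → Fin n → ℝ) :
    f X = ∑ i, ∑ j, X i j * f (Pi.single i (Pi.single j 1)) := by
  classical
  have h : X = ∑ i, ∑ j, X i j • (Pi.single i (Pi.single j 1) : Fin n → Fin n → ℝ) := by
    ext a b
    simp only [Finset.sum_apply, Pi.smul_apply, smul_eq_mul]
    rw [Finset.sum_eq_single a]
    · rw [Finset.sum_eq_single b]
      · simp
      · intro j _ hj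
        simp [Pi.single_eq_of_ne hj.symm]
      · simp
    · intro i _ hi
      refine Finset.sum_eq_zero fun j _ => ?_
      rw [Pi.single_eq_of_ne hi.symm]
      simp
    · simp
  conv_lhs => rw [h]
  rw [map_sum]
  refine Finset.sum_congr rfl fun i _ => ?_
  rw [map_sum]
  refine Finset.sum_congr rfl fun j _ => ?_
  rw [map_smul, smul_eq_mul]

/-- the symmetric matrix of minus a functional -/
noncomputable def Pm {n : ℕ} (f : (Fin n → Fin n → ℝ) →L[ℝ] ℝ) : Matrix (Fin n) (Fin n) ℝ :=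
  fun i j => -(f (Pi.single i (Pi.single j 1)) + f (Pi.single j (Pi.single i 1))) / 2

theorem Pm_symm {n : ℕ} (f : (Fin n → Fin n → ℝ) →L[ℝ] ℝ) : (Pm f).IsSymm := by
  ext i j
  simp only [Pm, Matrix.transpose_apply]
  ring

theorem Pm_form {n : ℕ} (f : (Fin n → Fin n → ℝ) →L[ℝ] ℝ) (x : Fin n → ℝ) :
    x ⬝ᵥ (Pm f *ᵥ x) = -f (rk x) := by
  rw [expand f (rk x)]
  simp only [dotProduct, Matrix.mulVec, Pm, rk]
  have h1 : ∑ i, x i * ∑ j, -(f (Pi.single i (Pi.single j 1)) + f (Pi.single j (Pi.single i 1))) / 2 * x j =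
      ∑ i, ∑ j, -(x i * x j * f (Pi.single i (Pi.single j 1))) / 2 +
        ∑ i, ∑ j, -(x i * x j * f (Pi.single j (Pi.single i 1))) / 2 := by
    rw [← Finset.sum_add_distrib]
    refine Finset.sum_congr rfl fun i _ => ?_
    rw [Finset.mul_sum, ← Finset.sum_add_distrib]
    refine Finset.sum_congr rfl fun j _ => ?_
    ring
  have h2 : ∑ i, ∑ j, -(x i * x j * f (Pi.single j (Pi.single i 1))) / 2 =
      ∑ i, ∑ j, -(x i * x j * f (Pi.single i (Pi.single j 1))) / 2 := by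
    rw [Finset.sum_comm]
    refine Finset.sum_congr rfl fun i _ => Finset.sum_congr rfl fun j _ => ?_
    ring
  rw [h1, h2, ← Finset.sum_add_distrib, ← Finset.sum_neg_distrib]
  refine Finset.sum_congr rfl fun i _ => ?_
  rw [← Finset.sum_add_distrib, ← Finset.sum_neg_distrib]
  refine Finset.sum_congr rfl fun j _ => ?_
  ring

theorem Pm_trace {n : ℕ} (f : (Fin n → Fin n → ℝ) →L[ℝ] ℝ) : (Pm f).trace = -f (un n) := by
  rw [expand f (un n)]
  simp only [Matrix.trace, Matrix.diag_apply, Pm, un]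
  rw [← Finset.sum_neg_distrib]
  refine Finset.sum_congr rfl fun i _ => ?_
  rw [Finset.sum_eq_single i]
  · simp
  · intro j _ hj
    simp [hj.symm]
  · simp

theorem tight {n : ℕ} (hn : 0 < n) {A : Matrix (Fin n) (Fin n) ℝ} (hA : A.det ≠ 0) {s T : ℝ}
    (hs : 0 < s) (hT : 1 < T) (D : Finset (Fin n → ℤ))
    (h : (max 1 (D.card : ℝ)) ^ ((2 : ℝ) / n) * hermite n < T ^ (2 * s / (1 + s)) * gam A) :
    NearlyTight A D T s := by
  classical
  by_contra hcon
  have hn0 : (0 : ℝ) < n := by exact_mod_cast hn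
  have hfin : {w : Fin n → ℤ | w ≠ 0 ∧ w ∉ D ∧ nsq A w < T ^ 2 * minSq A}.Finite :=
    (finite_lt hA _).subset fun _ hw => hw.2.2
  obtain ⟨F, hF⟩ : ∃ F : Finset (Fin n → ℤ), ∀ w, w ∈ F ↔ w ≠ 0 ∧ w ∉ D ∧ nsq A w < T ^ 2 * minSq A :=
    ⟨hfin.toFinset, fun w => by rw [Set.Finite.mem_toFinset]; rfl⟩
  have hpos : ∀ w : F, 0 < nsq A w.1 := fun w => nsq_pos hA ((hF w.1).1 w.2).1
  obtain ⟨L, hL⟩ : ∃ L : (F → ℝ) →ₗ[ℝ] (Fin n → Fin n → ℝ), L = Fintype.linearCombination ℝ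
    (fun w : F => (nsq A w.1)⁻¹ • rk (A *ᵥ fun j => (w.1 j : ℝ))) := ⟨_, rfl⟩
  have hdisj : Disjoint (L '' stdSimplex ℝ F) (Cset n ((1 + s) / n)) := by
    rw [Set.disjoint_left]
    rintro _ ⟨c, hc, rfl⟩ hX
    apply hcon
    refine ⟨F, fun w => if hw : w ∈ F then n * c ⟨w, hw⟩ / nsq A w else 0, fun w hw => ?_, ?_, ?_⟩
    · refine ⟨((hF w).1 hw).1, ((hF w).1 hw).2.1, ((hF w).1 hw).2.2, ?_⟩
      simp only [hw, dite_true]
      have h1 := hc.1 ⟨w, hw⟩
      have h2 := hpos ⟨w, hw⟩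
      positivity
    · rw [← Finset.sum_coe_sort F]
      have h1 : ∀ w : F, (if hw : w.1 ∈ F then (n : ℝ) * c ⟨w.1, hw⟩ / nsq A w.1 else 0) * nsq A w.1 =
          n * c w := by
        intro w
        have h2 := (hpos w).ne'
        simp only [w.2, dite_true]
        field_simp
      rw [Finset.sum_congr rfl fun w _ => h1 w, ← Finset.mul_sum, hc.2, mul_one]
    · intro x
      rw [← Finset.sum_coe_sort F]
      have h1 := hX x
      have h2 : ∑ i, ∑ j, x i * (L c) i j * x j =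
          ∑ w : F, c w * (nsq A w.1)⁻¹ * (x ⬝ᵥ (A *ᵥ fun j => (w.1 j : ℝ))) ^ 2 := by
        simp only [← form_rk]
        rw [hL]
        simp only [Fintype.linearCombination_apply, Finset.sum_apply, Pi.smul_apply, smul_eq_mul,
          Finset.mul_sum, Finset.sum_mul]
        rw [Finset.sum_congr rfl fun i _ => Finset.sum_comm, Finset.sum_comm]
        refine Finset.sum_congr rfl fun w _ => Finset.sum_congr rfl fun i _ =>
          Finset.sum_congr rfl fun j _ => ?_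
        ring
      have h3 : ∀ w : F, (if hw : w.1 ∈ F then (n : ℝ) * c ⟨w.1, hw⟩ / nsq A w.1 else 0) *
          (x ⬝ᵥ (A *ᵥ fun j => (w.1 j : ℝ))) ^ 2 =
          n * (c w * (nsq A w.1)⁻¹ * (x ⬝ᵥ (A *ᵥ fun j => (w.1 j : ℝ))) ^ 2) := by
        intro w
        simp only [w.2, dite_true]
        rw [div_eq_mul_inv]
        ring
      rw [Finset.sum_congr rfl fun w _ => h3 w, ← Finset.mul_sum, ← h2]
      calc (n : ℝ) * ∑ i, ∑ j, x i * (L c) i j * x j ≤ n * ((1 + s) / n * ∑ i, x i ^ 2) :=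
            mul_le_mul_of_nonneg_left h1 hn0.le
        _ = (1 + s) * ∑ i, x i ^ 2 := by field_simp
  obtain ⟨f, a, b, ha, hab, hb⟩ := geometric_hahn_banach_compact_closed
    ((convex_stdSimplex ℝ F).linear_image L)
    ((isCompact_stdSimplex ℝ F).image (LinearMap.continuous_of_finiteDimensional L))
    (Cset_convex n ((1 + s) / n)) (Cset_closed n ((1 + s) / n)) hdisj
  have hfr : ∀ (x : Fin n → ℝ) (r : ℝ), 0 ≤ r → b < (1 + s) / n * f (un n) - r * f (rk x) := by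
    intro x r hr
    have h1 := hb _ (mem_Cset (c := (1 + s) / n) hr x)
    rwa [map_sub, map_smul, map_smul, smul_eq_mul, smul_eq_mul] at h1
  have hP0 : ∀ x : Fin n → ℝ, 0 ≤ x ⬝ᵥ (Pm f *ᵥ x) := by
    intro x
    rw [Pm_form]
    by_contra hneg
    push Not at hneg
    have hpf : 0 < f (rk x) := by linarith
    have h1 := hfr x (max 0 (((1 + s) / n * f (un n) - b) / f (rk x))) (le_max_left _ _)
    have h2 : ((1 + s) / n * f (un n) - b) / f (rk x) * f (rk x) ≤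
        max 0 (((1 + s) / n * f (un n) - b) / f (rk x)) * f (rk x) :=
      mul_le_mul_of_nonneg_right (le_max_right _ _) hpf.le
    rw [div_mul_cancel₀ _ hpf.ne'] at h2
    linarith
  obtain ⟨p, hp⟩ : ∃ p : ℝ, p = (Pm f).trace := ⟨_, rfl⟩
  have hPw : ∀ w ∈ F, (1 + s) / n * p * nsq A w <
      (A *ᵥ fun j => (w j : ℝ)) ⬝ᵥ (Pm f *ᵥ (A *ᵥ fun j => (w j : ℝ))) := by
    intro w hw
    have h1 := ha (L (Pi.single ⟨w, hw⟩ 1)) ⟨_, single_mem_stdSimplex ℝ _, rfl⟩
    have h2 := hfr 0 0 le_rfl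
    rw [hL, Fintype.linearCombination_apply_single, one_smul, map_smul, smul_eq_mul] at h1
    rw [Pm_form, hp, Pm_trace]
    have h3 := hpos ⟨w, hw⟩
    simp only at h3 h1
    have h4 : (nsq A w)⁻¹ * f (rk (A *ᵥ fun j => (w j : ℝ))) < (1 + s) / n * f (un n) := by linarith
    rw [inv_mul_lt_iff₀ h3] at h4
    linarith
  have htr0 : 0 ≤ p := by
    rw [hp, Matrix.trace]
    refine Finset.sum_nonneg fun i _ => ?_
    have h1 := hP0 (Pi.single i 1)
    simpa [Matrix.mulVec_single_one, Matrix.col_apply, single_dotProduct] using h1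
  obtain ⟨κ, hκ0, hκp, hκw⟩ : ∃ κ : ℝ, 0 ≤ κ ∧ κ * p ≤ n ∧ ∀ w ∈ F, (1 + s) * nsq A w ≤
      κ * ((A *ᵥ fun j => (w j : ℝ)) ⬝ᵥ (Pm f *ᵥ (A *ᵥ fun j => (w j : ℝ)))) := by
    rcases htr0.eq_or_lt with h0 | h0
    · have hPw' : ∀ w ∈ F, 0 <
          (A *ᵥ fun j => (w j : ℝ)) ⬝ᵥ (Pm f *ᵥ (A *ᵥ fun j => (w j : ℝ))) := by
        intro w hw
        have h1 := hPw w hw
        rwa [← h0, mul_zero, zero_mul] at h1
      refine ⟨∑ w ∈ F, (1 + s) * nsq A w /
        ((A *ᵥ fun j => (w j : ℝ)) ⬝ᵥ (Pm f *ᵥ (A *ᵥ fun j => (w j : ℝ)))), ?_, ?_, ?_⟩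
      · refine Finset.sum_nonneg fun w hw => ?_
        have h1 := hPw' w hw
        have h2 := hpos ⟨w, hw⟩
        exact div_nonneg (mul_nonneg (by linarith) h2.le) h1.le
      · rw [← h0, mul_zero]
        exact hn0.le
      · intro w hw
        have h1 := hPw' w hw
        have h3 : (1 + s) * nsq A w /
            ((A *ᵥ fun j => (w j : ℝ)) ⬝ᵥ (Pm f *ᵥ (A *ᵥ fun j => (w j : ℝ)))) ≤
            ∑ w ∈ F, (1 + s) * nsq A w /
              ((A *ᵥ fun j => (w j : ℝ)) ⬝ᵥ (Pm f *ᵥ (A *ᵥ fun j => (w j : ℝ)))) := by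
          refine Finset.single_le_sum (f := fun w => (1 + s) * nsq A w /
            ((A *ᵥ fun j => (w j : ℝ)) ⬝ᵥ (Pm f *ᵥ (A *ᵥ fun j => (w j : ℝ))))) (fun z hz => ?_) hw
          have h1 := hPw' z hz
          have h2 := hpos ⟨z, hz⟩
          exact div_nonneg (mul_nonneg (by linarith) h2.le) h1.le
        rwa [div_le_iff₀ h1] at h3
    · refine ⟨n / p, by positivity, by rw [div_mul_cancel₀ _ h0.ne'], fun w hw => ?_⟩
      have h1 := hPw w hw
      calc (1 + s) * nsq A w = n / p * ((1 + s) / n * p * nsq A w) := by field_simp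
        _ ≤ _ := mul_le_mul_of_nonneg_left h1.le (by positivity)
  have hQs : (κ • Pm f - 1).IsSymm := by
    have h1 := Pm_symm f
    rw [Matrix.IsSymm] at h1 ⊢
    rw [Matrix.transpose_sub, Matrix.transpose_smul, h1, Matrix.transpose_one]
  have hQf : ∀ x : Fin n → ℝ, x ⬝ᵥ ((κ • Pm f - 1) *ᵥ x) = κ * (x ⬝ᵥ (Pm f *ᵥ x)) - x ⬝ᵥ x := by
    intro x
    rw [Matrix.sub_mulVec, Matrix.one_mulVec, Matrix.smul_mulVec, dotProduct_sub,
      dotProduct_smul, smul_eq_mul]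
  have hmain := main_count hn hA hQs (fun x => by
      rw [hQf]
      have := mul_nonneg hκ0 (hP0 x)
      linarith) (by
      rw [Matrix.trace_sub, Matrix.trace_smul, Matrix.trace_one, smul_eq_mul, ← hp, Fintype.card_fin]
      linarith) hs hT
  have hsub : below A (κ • Pm f - 1) T s ⊆ (D : Set (Fin n → ℤ)) := by
    rintro w ⟨h1, h2, h3⟩
    by_contra hwD
    rw [hQf] at h3
    have h4 := hκw w ((hF w).2 ⟨h1, fun h => hwD (Finset.mem_coe.2 h), h2⟩)
    have h5 : (A *ᵥ fun j => (w j : ℝ)) ⬝ᵥ (A *ᵥ fun j => (w j : ℝ)) = nsq A w := by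
      simp [dotProduct, nsq, sq]
    rw [h5] at h3
    linarith
  have hcard : (below A (κ • Pm f - 1) T s).ncard ≤ D.card := by
    rw [← Set.ncard_coe_finset]
    exact Set.ncard_le_ncard hsub (Finset.finite_toSet D)
  have hh0 : 0 ≤ hermite n :=
    le_trans (div_nonneg (minSq_nonneg A) (by positivity)) (le_hermite hn A hA)
  have hle : (max 1 ((below A (κ • Pm f - 1) T s).ncard : ℝ)) ^ ((2 : ℝ) / n) * hermite n ≤
      (max 1 (D.card : ℝ)) ^ ((2 : ℝ) / n) * hermite n := by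
    apply mul_le_mul_of_nonneg_right _ hh0
    apply Real.rpow_le_rpow (le_trans zero_le_one (le_max_left _ _)) _ (by positivity)
    exact max_le_max le_rfl (Nat.cast_le.2 hcard)
  linarith

end Pool.Agent.U350.NE
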